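import Pool.Agent.V7H41.CC.Spec4

/-!
# (SFIN) the final inequality
-/

open Finset

namespace Pool.Agent.V7H43.CC

open Pool.Agent.V7H41.CC

lemma four_pow_ge (j : ℕ) (hj : 9 ≤ j) : 2 * 10000 * (j + 1) ^ 2 ≤ 4 ^ j * (j + 2) := by
  induction j, hj using Nat.le_induction with
  | base => norm_num
  | succ j hj ih =>
    have h4 : 4 ^ (j + 1) * (j + 1 + 2) = 4 * (4 ^ j * (j + 2)) + 4 * 4 ^ j := by ring
    rw [h4]
    nlinarith [Nat.pos_of_ne_zero (pow_ne_zero j (by norm_num : (4 : ℕ) ≠ 0))]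

lemma core (n j : ℕ) (hn : 10 ^ 13 ≤ n) (hj : 1 ≤ j) (h : (200 * (j + 1)) ^ 2 ≤ n) :
    2 * (10000 * (j + 1) ^ 2) ^ (j + 1) ≤ n ^ j * (j + 2) := by
  rcases Nat.lt_or_ge j 9 with hj9 | hj9
  · have h1 : (10 ^ 13) ^ j ≤ n ^ j := Nat.pow_le_pow_left hn j
    refine le_trans ?_ (Nat.mul_le_mul_right _ h1)
    interval_cases j <;> norm_num
  · have h1 : (4 * (10000 * (j + 1) ^ 2)) ^ j ≤ n ^ j := by
      apply Nat.pow_le_pow_left
      calc 4 * (10000 * (j + 1) ^ 2) = (200 * (j + 1)) ^ 2 := by ring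
        _ ≤ n := h
    have h2 := four_pow_ge j hj9
    calc 2 * (10000 * (j + 1) ^ 2) ^ (j + 1)
        = (10000 * (j + 1) ^ 2) ^ j * (2 * 10000 * (j + 1) ^ 2) := by ring
      _ ≤ (10000 * (j + 1) ^ 2) ^ j * (4 ^ j * (j + 2)) := Nat.mul_le_mul_left _ h2
      _ = (4 * (10000 * (j + 1) ^ 2)) ^ j * (j + 2) := by rw [mul_pow 4]; ring
      _ ≤ n ^ j * (j + 2) := Nat.mul_le_mul_right _ h1

/-- (SFIN) -/
theorem t_SFIN : S_SFIN := by
  refine ⟨10 ^ 13, ?_⟩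
  intro n m hn hm hmn
  obtain ⟨j, rfl⟩ : ∃ j, m = j + 1 := ⟨m - 1, by omega⟩
  have hj : 1 ≤ j := by omega
  set s := n / (16 * (j + 1 + 1)) with hs
  have hpos : 0 < 16 * (j + 1 + 1) := by positivity
  have hs1 : 16 * (j + 1 + 1) * s ≤ n := Nat.mul_div_le n _
  have hs2 : n < 16 * (j + 1 + 1) * (s + 1) := Nat.lt_mul_div_succ n hpos
  -- real versions
  have hnR : (10 : ℝ) ^ 13 ≤ n := by exact_mod_cast hn
  have hjR : (1 : ℝ) ≤ j := by exact_mod_cast hj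
  have hmR : (200 * ((j : ℝ) + 1)) ^ 2 ≤ n := by exact_mod_cast hmn
  have hs2R : (n : ℝ) < 16 * (j + 1 + 1) * (s + 1) := by exact_mod_cast hs2
  -- n < 24 (j+1) (s+1)
  have hA : (n : ℝ) < 24 * (j + 1) * (s + 1) := by
    have : (16 : ℝ) * (j + 1 + 1) ≤ 24 * (j + 1) := by linarith
    have hsn : (0 : ℝ) ≤ (s : ℝ) + 1 := by positivity
    nlinarith
  -- 1 ≤ (j+1)/... ; s large: s + 1 > n / (24 (j+1)) ≥ 1666 (j+1)
  have hB : (1600 : ℝ) * (j + 1) < s + 1 := by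
    by_contra hcon
    push Not at hcon
    have h1 : (24 : ℝ) * (j + 1) * (s + 1) ≤ 24 * (j + 1) * (1600 * (j + 1)) := by
      apply mul_le_mul_of_nonneg_left hcon; positivity
    nlinarith
  have hs3200 : (3199 : ℝ) < s := by nlinarith
  have hC : (s : ℝ) + 1 ≤ (3200 / 3199) * s := by linarith
  have hD : (n : ℝ) < 25 * (j + 1) * s := by
    have : (24 : ℝ) * (j + 1) * (s + 1) ≤ 24 * (j + 1) * ((3200 / 3199) * s) := by
      apply mul_le_mul_of_nonneg_left hC; positivity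
    have h3 : (0 : ℝ) < (j + 1) * s := by positivity
    nlinarith
  have hsq : (n : ℝ) ^ 2 ≤ (25 * (j + 1) * s) ^ 2 :=
    pow_le_pow_left₀ (by positivity) hD.le 2
  refine ⟨s, ?_, ?_, ?_, ?_, ?_⟩
  · have : (1 : ℝ) ≤ s := by linarith
    exact_mod_cast this
  · calc 16 * s * (j + 1 + 1) = 16 * (j + 1 + 1) * s := by ring
      _ ≤ n := hs1
  · have hR : (4 : ℝ) * n ≤ (s : ℝ) ^ 2 := by
      -- n^2 ≤ 625 (j+1)^2 s^2 ≤ 625 n s^2 / 40000
      have h1 : (n : ℝ) * n ≤ 625 * ((j + 1) ^ 2) * s ^ 2 := by nlinarith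
      have h2 : (625 : ℝ) * ((j + 1) ^ 2) * s ^ 2 ≤ 625 * (n / 40000) * s ^ 2 := by
        apply mul_le_mul_of_nonneg_right _ (by positivity)
        nlinarith
      have h3 : (n : ℝ) * n ≤ n * ((s : ℝ) ^ 2 / 64) := by nlinarith
      have hn0 : (0 : ℝ) < n := by linarith
      have h4 := le_of_mul_le_mul_left h3 hn0
      nlinarith
    exact_mod_cast hR
  · apply pow_le_pow_left₀ (by positivity)
    rw [div_le_div_iff₀ (by positivity) (by norm_num)]
    push_cast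
    nlinarith [sq_nonneg (((j : ℝ) + 1) * s)]
  · have hc := core n j hn hj hmn
    have hcR : (2 : ℝ) * (10000 * ((j : ℝ) + 1) ^ 2) ^ (j + 1) ≤ (n : ℝ) ^ j * (j + 2) := by
      exact_mod_cast hc
    have hch : (n.choose (j + 1 + 1) : ℝ) ≤ (n : ℝ) ^ (j + 1 + 1) / (j + 1 + 1).factorial :=
      Nat.choose_le_pow_div _ _
    have hf : ((j + 1 + 1).factorial : ℝ) = (j + 2) * (j + 1).factorial := by
      rw [Nat.factorial_succ (j + 1)]; push_cast; ring
    have hfp : (0 : ℝ) < (j + 1).factorial := by exact_mod_cast Nat.factorial_pos _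
    have hn0 : (0 : ℝ) < n := by linarith
    calc 2 * (n.choose (j + 1 + 1) : ℝ)
        ≤ 2 * ((n : ℝ) ^ (j + 1 + 1) / (j + 1 + 1).factorial) := by linarith
      _ ≤ ((n : ℝ) ^ 2 / (10000 * ((j + 1 : ℕ) : ℝ) ^ 2)) ^ (j + 1) / (j + 1).factorial := by
        rw [hf, div_pow, div_div, ← mul_div_assoc, div_le_div_iff₀ (by positivity) (by positivity)]
        push_cast
        have e1 : ((n : ℝ) ^ 2) ^ (j + 1) = n ^ (j + 1 + 1) * n ^ j := by
          rw [← pow_mul, ← pow_add]; congr 1; ring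
        rw [e1]
        have h5 : (0 : ℝ) ≤ (n : ℝ) ^ (j + 1 + 1) * (j + 1).factorial := by positivity
        have := mul_le_mul_of_nonneg_left hcR h5
        nlinarith

end Pool.Agent.V7H43.CC
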