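import Pool.Agent.V7H41.CC.Spec2

/-!
# Sequences close to the binomial coefficients
-/

set_option linter.all false

open Finset

namespace Pool.Agent.V7H43.CC

open Pool.Agent.V7H41.CC

theorem choose_step (n j : ℕ) (hj : j ≤ n) :
    (n.choose (j + 1) : ℝ) * ((j : ℝ) + 1) = (n.choose j : ℝ) * ((n : ℝ) - j) := by
  have h := Nat.choose_succ_right_eq n j
  have h2 : (n.choose (j + 1) : ℝ) * ((j + 1 : ℕ) : ℝ) = (n.choose j : ℝ) * ((n - j : ℕ) : ℝ) := by
    exact_mod_cast h
  rw [Nat.cast_sub hj] at h2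
  push_cast at h2
  exact h2

theorem t_UNI : S_UNI := by
  refine ⟨10000, fun n hn a hlo hup => ⟨?_, ?_, ?_⟩⟩
  · -- increasing in the first half
    intro k hk hkn
    obtain ⟨m, rfl⟩ : ∃ m, n = k + m := ⟨n - k, by omega⟩
    have hm : k ≤ m := by omega
    have hm5 : 5000 ≤ m := by omega
    have h4 : 4 * (k + m) ≤ m ^ 2 := by nlinarith
    have h1 := hup m h4 (by omega)
    rw [show k + m - m = k by omega] at h1
    have h2 := hlo (m - 1) (by omega) (by omega)
    rw [show k + m - (m - 1) = k + 1 by omega, show m - 1 + 1 = m by omega] at h2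
    have h3 := choose_step (k + m) m (by omega)
    set X : ℝ := ((k + m).choose m : ℝ) with hX
    set Y : ℝ := ((k + m).choose (m + 1) : ℝ) with hY
    have hX0 : 0 ≤ X := Nat.cast_nonneg _
    have hY0 : 0 ≤ Y := Nat.cast_nonneg _
    have hmR : (5000 : ℝ) ≤ m := by exact_mod_cast hm5
    have hkR : (k : ℝ) ≤ m := by exact_mod_cast hm
    have hk0 : (0 : ℝ) ≤ k := Nat.cast_nonneg _
    refine h1.trans (le_trans ?_ h2)
    push_cast at h3 ⊢
    have h5 : 100 * ((k : ℝ) + m) / (m : ℝ) ^ 3 ≤ 1 / (m : ℝ) ^ 1 / 5 := by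
      rw [pow_one, div_div, div_le_div_iff₀ (by positivity) (by positivity)]
      nlinarith [mul_nonneg (sub_nonneg.2 hmR) (sq_nonneg (m : ℝ)),
        mul_nonneg (mul_nonneg (sub_nonneg.2 hmR) (by linarith : (0:ℝ) ≤ m)) (by linarith : (0:ℝ) ≤ m)]
    have h6 : 1 + 100 * ((k : ℝ) + m) / (m : ℝ) ^ 3 ≤ 1 + 1 / m := by
      have h7 : 1 / (m : ℝ) ^ 1 / 5 ≤ 1 / m := by
        rw [pow_one]
        have : (0 : ℝ) ≤ 1 / m := by positivity
        linarith
      linarith
    have h8 : Y * (1 + 100 * ((k : ℝ) + m) / (m : ℝ) ^ 3) ≤ Y * (1 + 1 / m) :=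
      mul_le_mul_of_nonneg_left h6 hY0
    refine h8.trans ?_
    -- Y (m + 1) = X k ≤ X m
    have h9 : Y * (m + 1) ≤ X * m := by
      rw [h3]
      have : (k : ℝ) + m - m = k := by ring
      rw [this]
      exact mul_le_mul_of_nonneg_left hkR hX0
    have h10 : Y * (1 + 1 / m) = Y * (m + 1) / m := by field_simp
    rw [h10, div_le_iff₀ (by linarith)]
    exact h9
  · -- decreasing in the second half
    intro k hk hkn hk4
    obtain ⟨p, rfl⟩ : ∃ p, n = k + (p + 1) := ⟨n - k - 1, by omega⟩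
    rw [show k + (p + 1) - (k + 1) = p by omega] at hk4
    have hp3 : p + 3 ≤ k := by omega
    have h1 := hup p hk4 (by omega)
    rw [show k + (p + 1) - p = k + 1 by omega] at h1
    have h2 := hlo (p + 1) (by omega) (by omega)
    rw [show k + (p + 1) - (p + 1) = k by omega] at h2
    have h3 := choose_step (k + (p + 1)) (p + 1) (by omega)
    set X : ℝ := ((k + (p + 1)).choose (p + 1) : ℝ) with hX
    set Y : ℝ := ((k + (p + 1)).choose (p + 1 + 1) : ℝ) with hY
    have hX0 : 0 ≤ X := Nat.cast_nonneg _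
    have hp200 : 200 ≤ p := by
      by_contra hc
      have : p ^ 2 ≤ 199 ^ 2 := Nat.pow_le_pow_left (by omega) 2
      omega
    have hpR : (200 : ℝ) ≤ p := by exact_mod_cast hp200
    have hkR : (p : ℝ) + 3 ≤ k := by exact_mod_cast hp3
    have hnR : (10000 : ℝ) ≤ k + (p + 1) := by exact_mod_cast hn
    have h4R : 4 * ((k : ℝ) + (p + 1)) ≤ (p : ℝ) ^ 2 := by exact_mod_cast hk4
    refine h1.trans (le_trans ?_ h2)
    push_cast at h3 ⊢
    -- the key inequality
    have h5 : (1 + 100 * ((k : ℝ) + (p + 1)) / (p : ℝ) ^ 3) * (p + 2) ≤ k := by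
      have hp0 : (0 : ℝ) < p := by linarith
      have h6 : 100 * ((k : ℝ) + (p + 1)) / (p : ℝ) ^ 3 * (p + 2) ≤
          200 * ((k : ℝ) + (p + 1)) / (p : ℝ) ^ 2 := by
        rw [div_mul_eq_mul_div, div_le_div_iff₀ (by positivity) (by positivity)]
        have h7 : (p : ℝ) + 2 ≤ 2 * p := by linarith
        have h8 : 0 ≤ 100 * ((k : ℝ) + (p + 1)) := by positivity
        calc 100 * ((k : ℝ) + (p + 1)) * (p + 2) * (p : ℝ) ^ 2
            ≤ 100 * ((k : ℝ) + (p + 1)) * (2 * p) * (p : ℝ) ^ 2 := by gcongr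
          _ = 200 * ((k : ℝ) + (p + 1)) * (p : ℝ) ^ 3 := by ring
      have h7 : 200 * ((k : ℝ) + (p + 1)) / (p : ℝ) ^ 2 ≤ k - (p + 2) := by
        rw [div_le_iff₀ (by positivity)]
        rcases le_total (4 * (p : ℝ)) ((k : ℝ) + (p + 1)) with hc | hc
        · -- p ≤ n / 4
          have h8 : (50 : ℝ) ≤ k - (p + 2) := by linarith
          calc 200 * ((k : ℝ) + (p + 1)) = 50 * (4 * ((k : ℝ) + (p + 1))) := by ring
            _ ≤ 50 * (p : ℝ) ^ 2 := by linarith
            _ ≤ (k - (p + 2)) * (p : ℝ) ^ 2 := mul_le_mul_of_nonneg_right h8 (sq_nonneg _)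
        · -- p ≥ n / 4
          have h8 : (1 : ℝ) ≤ k - (p + 2) := by linarith
          have h9 : (2500 : ℝ) ≤ p := by linarith
          calc 200 * ((k : ℝ) + (p + 1)) ≤ 800 * (p : ℝ) := by linarith
            _ ≤ p * p := mul_le_mul_of_nonneg_right (by linarith) (by linarith)
            _ = 1 * (p : ℝ) ^ 2 := by ring
            _ ≤ (k - (p + 2)) * (p : ℝ) ^ 2 := mul_le_mul_of_nonneg_right h8 (sq_nonneg _)
      have h8 : (1 + 100 * ((k : ℝ) + (p + 1)) / (p : ℝ) ^ 3) * (p + 2) =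
          (p + 2) + 100 * ((k : ℝ) + (p + 1)) / (p : ℝ) ^ 3 * (p + 2) := by ring
      rw [h8]
      linarith
    have h6 : X * (1 + 100 * ((k : ℝ) + (p + 1)) / (p : ℝ) ^ 3) * (p + 2) ≤ Y * (p + 2) := by
      have e1 : Y * ((p : ℝ) + 2) = X * k := by
        have e2 : (p : ℝ) + 1 + 1 = p + 2 := by ring
        have e3 : (k : ℝ) + (p + 1) - (p + 1) = k := by ring
        rw [e2, e3] at h3
        exact h3
      rw [e1, mul_assoc]
      exact mul_le_mul_of_nonneg_left h5 hX0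
    exact le_of_mul_le_mul_right h6 (by linarith)
  · -- log-concavity
    intro k hk hkn hk4
    obtain ⟨m, rfl⟩ : ∃ m, n = k + m := ⟨n - k, by omega⟩
    rw [show k + m - k = m by omega] at hk4
    have hm2000 : 2000 ≤ m := by
      by_contra hc
      have : m ^ 2 ≤ 1999 ^ 2 := Nat.pow_le_pow_left (by omega) 2
      omega
    obtain ⟨q, rfl⟩ : ∃ q, m = q + 1 := ⟨m - 1, by omega⟩
    have hq : 1999 ≤ q := by omega
    have hq4 : 4 * (k + (q + 1)) ≤ q ^ 2 := by nlinarith
    have hq4' : 4 * (k + (q + 1)) ≤ (q + 2) ^ 2 := by nlinarith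
    have u1 := hup (q + 2) hq4' (by omega)
    rw [show k + (q + 1) - (q + 2) = k - 1 by omega] at u1
    have u2 := hup q hq4 (by omega)
    rw [show k + (q + 1) - q = k + 1 by omega] at u2
    have l0 := hlo (q + 1) (by omega) (by omega)
    rw [show k + (q + 1) - (q + 1) = k by omega] at l0
    have l1 := hlo (q + 2) (by omega) (by omega)
    rw [show k + (q + 1) - (q + 2) = k - 1 by omega] at l1
    have l2 := hlo q (by omega) (by omega)
    rw [show k + (q + 1) - q = k + 1 by omega] at l2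
    have s1 := choose_step (k + (q + 1)) (q + 1) (by omega)
    have s2 := choose_step (k + (q + 1)) (q + 2) (by omega)
    set N : ℕ := k + (q + 1) with hN
    set Z : ℝ := (N.choose (q + 1) : ℝ) with hZ
    set X : ℝ := (N.choose (q + 1 + 1) : ℝ) with hX
    set Y : ℝ := (N.choose (q + 2 + 1) : ℝ) with hY
    have hZ0 : 0 ≤ Z := Nat.cast_nonneg _
    have hX0 : 0 ≤ X := Nat.cast_nonneg _
    have hY0 : 0 ≤ Y := Nat.cast_nonneg _
    have hkR : (2 : ℝ) ≤ k := by exact_mod_cast hk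
    have hqR : (1999 : ℝ) ≤ q := by exact_mod_cast hq
    have hNR : (N : ℝ) = k + (q + 1) := by rw [hN]; push_cast; ring
    have h4R : 400 * (N : ℝ) ≤ ((q : ℝ) + 1) ^ 2 := by exact_mod_cast hk4
    set e : ℝ := 100 * (N : ℝ) / (q : ℝ) ^ 3 with he
    have hN0 : (0 : ℝ) ≤ N := Nat.cast_nonneg _
    have he0 : 0 ≤ e := by positivity
    have he1 : 100 * (N : ℝ) / ((q + 2 : ℕ) : ℝ) ^ 3 ≤ e := by
      rw [he]
      apply div_le_div_of_nonneg_left (by positivity) (by positivity)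
      push_cast
      gcongr
      linarith
    have b1 : a (k - 1) ≤ Y * (1 + e) := u1.trans (mul_le_mul_of_nonneg_left (by linarith) hY0)
    have b2 : a (k + 1) ≤ Z * (1 + e) := u2
    have hprod : a (k - 1) * a (k + 1) ≤ (Y * (1 + e)) * (Z * (1 + e)) :=
      mul_le_mul b1 b2 (hZ0.trans l2) (by positivity)
    refine hprod.trans ?_
    have hfin : X ^ 2 ≤ a k ^ 2 := pow_le_pow_left₀ hX0 l0 2
    refine le_trans ?_ hfin
    -- (q + 2) (1 + e)² ≤ q + 3
    have hq0 : (0 : ℝ) < q := by linarith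
    have h5 : ((q : ℝ) + 2) * e ≤ 3 / 10 := by
      rw [he, mul_div_assoc', div_le_iff₀ (by positivity)]
      have h6 : ((q : ℝ) + 2) * (100 * N) ≤ ((q : ℝ) + 2) * (((q : ℝ) + 1) ^ 2 / 4) := by
        gcongr
        linarith
      refine h6.trans ?_
      have h7 : (q : ℝ) + 2 ≤ 101 / 100 * q := by linarith
      have h8 : (q : ℝ) + 1 ≤ 101 / 100 * q := by linarith
      calc ((q : ℝ) + 2) * (((q : ℝ) + 1) ^ 2 / 4)
          ≤ (101 / 100 * q) * ((101 / 100 * (q : ℝ)) ^ 2 / 4) := by gcongr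
        _ = (101 / 100) ^ 3 / 4 * (q : ℝ) ^ 3 := by ring
        _ ≤ 3 / 10 * (q : ℝ) ^ 3 := mul_le_mul_of_nonneg_right (by norm_num) (by positivity)
    have h6 : e ≤ 1 / 10 := by
      have h7 : 3 * e ≤ ((q : ℝ) + 2) * e := mul_le_mul_of_nonneg_right (by linarith) he0
      linarith
    have h7 : ((q : ℝ) + 2) * (1 + e) ^ 2 ≤ q + 3 := by
      have h8 : ((q : ℝ) + 2) * e * e ≤ 3 / 10 * (1 / 10) := mul_le_mul h5 h6 he0 (by norm_num)
      have h9 : ((q : ℝ) + 2) * (1 + e) ^ 2 =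
          (q + 2) + 2 * (((q : ℝ) + 2) * e) + ((q : ℝ) + 2) * e * e := by ring
      rw [h9]
      linarith
    -- the two identities
    have s1' : X * ((q : ℝ) + 2) = Z * k := by
      have e1 : (((q + 1 : ℕ) : ℝ) + 1) = q + 2 := by push_cast; ring
      have e2 : (N : ℝ) - ((q + 1 : ℕ) : ℝ) = k := by rw [hNR]; push_cast; ring
      rw [e1, e2] at s1
      exact s1
    have s2' : Y * ((q : ℝ) + 3) = X * (k - 1) := by
      have e1 : (((q + 2 : ℕ) : ℝ) + 1) = q + 3 := by push_cast; ring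
      have e2 : (N : ℝ) - ((q + 2 : ℕ) : ℝ) = k - 1 := by rw [hNR]; push_cast; ring
      rw [e1, e2] at s2
      exact s2
    -- multiply by (q + 3) k
    have hk0 : (0 : ℝ) < k := by linarith
    have h8 : (Y * (1 + e)) * (Z * (1 + e)) * (((q : ℝ) + 3) * k) ≤ X ^ 2 * (((q : ℝ) + 3) * k) := by
      calc (Y * (1 + e)) * (Z * (1 + e)) * (((q : ℝ) + 3) * k)
          = (Y * ((q : ℝ) + 3)) * (Z * k) * (1 + e) ^ 2 := by ring
        _ = (X * (k - 1)) * (X * ((q : ℝ) + 2)) * (1 + e) ^ 2 := by rw [s2', s1']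
        _ = X ^ 2 * (k - 1) * (((q : ℝ) + 2) * (1 + e) ^ 2) := by ring
        _ ≤ X ^ 2 * (k - 1) * (q + 3) := by
            apply mul_le_mul_of_nonneg_left h7
            apply mul_nonneg (sq_nonneg _)
            linarith
        _ ≤ X ^ 2 * k * (q + 3) := by
            apply mul_le_mul_of_nonneg_right _ (by linarith)
            apply mul_le_mul_of_nonneg_left (by linarith) (sq_nonneg _)
        _ = X ^ 2 * (((q : ℝ) + 3) * k) := by ring
    exact le_of_mul_le_mul_right h8 (by positivity)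

end Pool.Agent.V7H43.CC
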